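import Pool.Agent.Q49.FC.Curves

/-!
# Beilinson's conjecture for `K_2` of curves and étale coverings of Fermat curves

For a smooth projective geometrically irreducible curve `C` over a number field `k` let `reg C` be the regulator
`H^2_M(C, ℚ(2))_ℤ → Hom(H_1(C(ℂ), ℤ)^-, ℝ)`. Question Q1 for `C` (`Q1 D C`) says that it induces an
isomorphism after tensoring the left side with `ℝ`, and that the dimension of the left side is `g [k : ℚ]`.

**Theorem.** The following statements are equivalent.

1. Question Q1 for all curves over all number fields.
2. Question Q1 for all curves over `ℚ`.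
3. Question Q1 for all curves `C'` over number fields `L` with the following property, for some `N`: `C'` is
   a finite étale Galois covering of the Fermat curve `x^N + y^N = 1` over `L`, and a Galois covering
   of the projective line by `x^N` (it is ramified only over `0, 1, ∞`, with all ramification indices `N`).
4. The same, for one integer `M > 0` and one number field `L₀`, only for the `N` divisible by `M` and the
   fields `L` containing `L₀`.

The known facts used (hypotheses `IsCurves`): Let `C` be a curve over `k`. By Belyi's theorem there is a
covering `C → ℙ¹` which is ramified only over `0, 1, ∞`. Let `N` be a multiple of `M` and of the ramification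
indices, and let `C'` be the Galois closure over `ℙ¹` of a component of the normalization of
`C ×_{ℙ¹} F_N`, over a large field `L`. By Abhyankar's lemma `C' → F_N` is étale. For the nonconstant morphism
`C' → C` inverse and direct image satisfy `f_* f^* = d` (`Factor`), compatibly with regulators and with
the integral parts. The Weil restriction to `ℚ` of the Jacobian of `C` is a quotient of the Jacobian of a
curve over `ℚ`, and the groups depend only on `h^1`.
-/

set_option autoImplicit false

universe u

namespace Pool.Agent.Results.MP_0a9c3b_nt.FermatCovers

open Pool.Agent.Q49.FC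

/-- Question Q1 for the curve `C` over `k`. -/
def Q1 (D : Curves.{u}) {k : D.Fld} (C : D.Curve k) : Prop :=
  Module.finrank ℚ (D.reg C).V = D.genus C * D.deg k ∧ (D.reg C).Iso

/-- **Beilinson's conjecture for `K_2` of curves and étale coverings of Fermat curves.** -/
theorem result {D : Curves.{u}} (h : IsCurves D) : List.TFAE [
    ∀ (k : D.Fld) (C : D.Curve k), Q1 D C,
    ∀ Y : D.Curve D.Q, Q1 D Y,
    ∀ (L : D.Fld) (N : ℕ) (C' : D.Curve L), 0 < N → D.IsFermatCover N C' → Q1 D C',
    ∃ (M : ℕ) (L₀ : D.Fld), 0 < M ∧ ∀ (L : D.Fld) (N : ℕ) (C' : D.Curve L), 0 < N →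
      D.Le L₀ L → M ∣ N → D.IsFermatCover N C' → Q1 D C'] := by
  have h1 : ∀ (k : D.Fld) (C : D.Curve k), Q1 D C ↔ (D.reg C).Iso := fun k C =>
    ⟨fun h2 => h2.2, fun h2 => ⟨(Iso.finrank_eq h2).trans (h.dim k C), h2⟩⟩
  simp only [h1]
  exact curves_tfae h

end Pool.Agent.Results.MP_0a9c3b_nt.FermatCovers
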