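import Pool.Agent.Q117.ML.Lead

/-!
# Beilinson's conjecture for `K_2` of curves: the leading derivative at `s = 0` from Frobenius traces

`C` is a curve of genus `g` over a number field `k`, `r = g [k : ℚ]`. For a finite place `v` of `k` with norm `N v` let
`P v ∈ ℚ[X]` be the polynomial `det(1 - Frob_v X | H^1(C)^{I_v})`, with reciprocal roots `α v j` (padded by zeros),
`|α v j| ≤ (N v)^{1/2}`. For `γ > π/2` put

`S(T) = ∑_v ∑_{m ≥ 1} (∑_j (α v j)^m / m) e^{iγ m log N v / T} / Γ(1 + m log N v / T)`.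

If `L(C, s)` has a zero of order `r` at `s = 0`, then `r! T^r e^{S(T) - r Λ(γ)} = L^{(r)}(C, 0) + O(1/T)`, and for a
real number `R ≠ 0` (the determinant of the regulator pairing) the congruence `L^{(r)}(C, 0) ≡ R` modulo `ℚ^*` holds
if and only if for some `D ≥ 1` the distance of `D r! T^r e^{S(T) - r Λ(γ)} / R` from the integers tends to `0`
along one sequence of numbers `T → ∞`.
-/

set_option autoImplicit false

namespace Pool.Agent.Results.MP_0a9c3b_nt.LeadingDerivative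

open Filter Topology Asymptotics NumberField IsDedekindDomain Polynomial Pool.Agent.Q45.ML
open Pool.Agent.Q117.ML Pool.Agent.W187.UR

variable {k : Type} [Field k] [NumberField k]

/-- the term at `(v, m)`, `m = z.2 + 1` -/
noncomputable def term {n : ℕ} (α : HeightOneSpectrum (𝓞 k) → Fin n → ℂ) (γ T : ℝ)
    (z : HeightOneSpectrum (𝓞 k) × ℕ) : ℂ :=
  (∑ j, α z.1 j ^ (z.2 + 1)) / (z.2 + 1) *
    (Complex.exp ((γ * ((z.2 + 1) * Real.log (Ideal.absNorm z.1.asIdeal) / T) : ℝ) * Complex.I) /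
      (Real.Gamma (1 + (z.2 + 1) * Real.log (Ideal.absNorm z.1.asIdeal) / T) : ℂ))

/-- the smoothed sum -/
noncomputable def S {n : ℕ} (α : HeightOneSpectrum (𝓞 k) → Fin n → ℂ) (γ T : ℝ) : ℂ :=
  ∑' z, term α γ T z

/-- `r! T^r e^{S(T) - r Λ(γ)}` -/
noncomputable def A {n : ℕ} (α : HeightOneSpectrum (𝓞 k) → Fin n → ℂ) (r : ℕ) (γ T : ℝ) : ℂ :=
  Complex.exp (S α γ T - r * Lam γ) * (T : ℂ) ^ r * (r.factorial : ℂ)

theorem term_eq {n : ℕ} (α : HeightOneSpectrum (𝓞 k) → Fin n → ℂ) (γ T : ℝ)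
    (z : HeightOneSpectrum (𝓞 k) × ℕ) : term α γ T z = sterm nrm α 0 γ T z := by
  unfold term sterm nrm
  simp

theorem result (k : Type) [Field k] [NumberField k] (g : ℕ) (P : HeightOneSpectrum (𝓞 k) → ℚ[X])
    (α : HeightOneSpectrum (𝓞 k) → Fin (2 * g) → ℂ)
    (hP : ∀ v, (P v).map (algebraMap ℚ ℂ) = ∏ j, (1 - C (α v j) * X))
    (hα : ∀ v j, ‖α v j‖ ≤ (Ideal.absNorm v.asIdeal : ℝ) ^ (1 / 2 : ℝ))
    (L : ℂ → ℂ) (hA : ∀ σ : ℝ, 0 ≤ σ → AnalyticAt ℂ L (σ : ℂ))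
    (hL : ∀ s : ℂ, 3 / 2 < s.re →
      HasProd (fun v => (aeval ((Ideal.absNorm v.asIdeal : ℂ) ^ (-s)) (P v))⁻¹) (L s))
    (r : ℕ) (_hr : r = g * Module.finrank ℚ k) (hord : analyticOrderAt L 0 = r)
    (R : ℝ) (hR : R ≠ 0) {γ : ℝ} (hγ : Real.pi / 2 < γ) :
    (∀ T : ℝ, 0 < T → Summable fun z => ‖term α γ T z‖) ∧
    (fun T : ℝ => A α r γ T - iteratedDeriv r L 0) =O[atTop] (fun T : ℝ => 1 / T) ∧
    ((∃ x : ℚ, x ≠ 0 ∧ iteratedDeriv r L 0 = x * R) ↔
      ∃ D : ℕ, 0 < D ∧ ∃ t : ℕ → ℝ, Tendsto t atTop atTop ∧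
        Tendsto (fun i => Metric.infDist ((D : ℂ) * (A α r γ (t i) / R))
          (Set.range fun a : ℤ => (a : ℂ))) atTop (𝓝 0)) := by
  have E : Eul (2 * g) (nrm (K := k)) α (1 / 2) 1 :=
    ⟨zero_le_one, two_le_nrm, fun _ hσ => nrm_summable hσ, hα⟩
  have hS : ∀ T, smooth (nrm (K := k)) α 0 γ T = S α γ T := by
    intro T
    unfold smooth S
    simp only [term_eq]
  have hF : ∀ s : ℂ, (1 / 2 : ℝ) + 1 < s.re →
      HasProd (fun v => ∏ j, (1 - α v j * ((nrm (K := k) v : ℝ) : ℂ) ^ (-s))⁻¹) (L s) := by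
    intro s hs
    refine (hL s (by norm_num at hs ⊢; exact hs)).congr_fun fun v => ?_
    have h1 : aeval ((Ideal.absNorm v.asIdeal : ℂ) ^ (-s)) (P v) =
        ∏ j, (1 - α v j * (Ideal.absNorm v.asIdeal : ℂ) ^ (-s)) := by
      rw [aeval_def, eval₂_eq_eval_map, hP v, eval_prod]
      simp
    rw [h1, Finset.prod_inv_distrib]
    simp [nrm]
  obtain ⟨h1, h2⟩ := leading_rate E (F := L) (s₀ := 0) (by norm_num)
    (fun x hx _ => (hA x hx).meromorphicAt) hF (hA 0 le_rfl) (k := r)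
    (by rw [Complex.ofReal_zero]; exact hord) hγ
  simp only [hS, Complex.ofReal_zero] at h1 h2
  have h2' : (fun T : ℝ => A α r γ T - iteratedDeriv r L 0) =O[atTop] (fun T : ℝ => 1 / T) := h2
  refine ⟨fun T hT => ?_, h2', ?_⟩
  · simp only [term_eq]
    exact E.sterm_summable 0 γ hT
  · rw [← rat_iff (by exact_mod_cast hR) (tendsto_of_rate h2')]
    constructor
    · rintro ⟨x, _, hx⟩
      exact ⟨x, hx⟩
    · rintro ⟨x, hx⟩
      refine ⟨x, ?_, hx⟩
      rintro rfl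
      rw [Rat.cast_zero, zero_mul] at hx
      exact h1 hx

end Pool.Agent.Results.MP_0a9c3b_nt.LeadingDerivative
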