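import Pool.Agent.Q193.LT.Cyc

/-!
# Beilinson's conjecture for `K_2` of curves and cubics `T(x, y, z) = 1` with three variables `z`

For a Chow motive `N` over `ℚ` let `H^{2n-2}_M(N, ℚ(n))_ℤ` be the integral part of the motivic cohomology
`K_2(N)^{(n)}` (in the definition of Scholl, which is functorial in Chow motives and which is the group
of the problem for curves), and `H^{2n-2}_D(N_ℝ, ℝ(n))` the real Deligne-Beilinson cohomology. The
regulator is a natural map `H^{2n-2}_M(N, ℚ(n))_ℤ ⊗ ℝ → H^{2n-2}_D(N_ℝ, ℝ(n))`.

For a separated scheme `X` of finite type over `ℚ` let `W(X)` be its weight complex (Gillet, Soulé), a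
complex of Chow motives over `ℚ`. For the indices `(n, j) ∈ ℤ × ℤ` let
`A^{n,j}(X) = H^j(H^{2n-2}_M(W(X), ℚ(n))_ℤ ⊗ ℝ)`, `B^{n,j}(X) = H^j(H^{2n-2}_D(W(X)_ℝ, ℝ(n)))`. The
regulator induces maps `A^{n,j}(X) → B^{n,j}(X)`. For smooth projective `X` these are the regulators
`K_2(X)^{(n)}_ℤ ⊗ ℝ → H^{2n-2}_D(X_ℝ, ℝ(n))` if `j = 0`, and the groups for `j ≠ 0` are zero.
`BijAll C X` says that the maps are isomorphisms for all `(n, j)`.

A smooth projective curve over a number field `k` is also a smooth projective curve over `ℚ`, and every
connected smooth projective curve over `ℚ` is of this form. For such a curve the groups are zero for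
`n ≠ 2` (for `n = 3` because `K_2` of a number field is a torsion group), and the case `n = 2` is
question Q1. So the statement `KTwo` of question Q1, for all number fields and all curves,
is equivalent to `Proj C 1` (hypothesis `curves`).

**Theorem.** (1) Beilinson's conjecture for `K_2` of curves (question Q1) is true for all curves over all
number fields if and only if the maps `A^{n,j}(Z) → B^{n,j}(Z)` are isomorphisms for the smooth
affine cubic hypersurfaces `Z : T(x, y, z) = 1` of all trilinear forms `T` over `ℚ` such that one of the
three blocks of variables has at most three variables (the other two blocks are arbitrary).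

(2) Unconditionally, they are isomorphisms if one of the three blocks has at most two variables.

(3) For all `d`, the regulator of `K_2` is an isomorphism for all smooth projective varieties of dimension
at most `d` over `ℚ` (in all degrees `n`) if and only if the maps are isomorphisms for the
hypersurfaces `T(x, y, z) = 1` over `ℚ` such that one of the three blocks of variables has at most `d + 2`
variables.
-/

set_option autoImplicit false

open CategoryTheory CategoryTheory.Limits AlgebraicGeometry Pool.Agent.Y116.UV Pool.Agent.Z125.UN
  Pool.Agent.Q193.LT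

universe w

namespace Pool.Agent.Results.MP_0a9c3b_nt.ThreeVariables

/-- The maps are isomorphisms for all smooth projective schemes of dimension at most `d`. -/
def Proj (C : PairData.{w} ℚ (ℤ × ℤ) ℝ) (d : ℕ) : Prop :=
  ∀ Y : Sch ℚ, SmoothProj Y → topologicalKrullDim Y.left ≤ d → BijAll C Y

/-- The maps are isomorphisms for all hypersurfaces `T = 1` with a block of at most `m` variables. -/
def Forms (C : PairData.{w} ℚ (ℤ × ℤ) ℝ) (m : ℕ) : Prop :=
  ∀ (a b c : ℕ) (T : Fin a → Fin b → Fin c → ℚ), (a ≤ m ∨ b ≤ m ∨ c ≤ m) → BijAll C (hypS T)

/-- **`K_2` of curves and cubic hypersurfaces.** See the explanations above. `point` and `fields` are the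
known case of the schemes of dimension zero (Garland: `K_2` of a number field is a torsion group). -/
theorem result {C : PairData.{w} ℚ (ℤ × ℤ) ℝ} (hC : IsWeightPair C) (hg : WeightGen C)
    (point : BijAll C (aff ℚ ℚ)) (fields : Proj C 0) {KTwo : Prop} (curves : KTwo ↔ Proj C 1) :
    (KTwo ↔ Forms C 3) ∧ Forms C 2 ∧ ∀ d : ℕ, Proj C d ↔ Forms C (d + 2) :=
  ⟨curves.trans (wg_dim hg hC point 1), (wg_dim hg hC point 0).mp fields,
    fun d => wg_dim hg hC point d⟩

end Pool.Agent.Results.MP_0a9c3b_nt.ThreeVariables
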